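import Pool.Agent.V1132.CN.Mod
import Pool.Agent.TH57.Thr.KGr
import Pool.Agent.TH57.Thr.KRed

set_option autoImplicit false

/-! For a torsion-free group `G` and a finitely generated projective `ℤG`-module `P`, the least
operator norm of the matrices which present a module stably isomorphic to `P` takes only the values
`0` and `3 / √2`: it is `0` if `P` is stably free and exactly `3 / √2` otherwise. -/

namespace Pool.Agent.Results.MP_551055_al.CriticalNorm

open TH57.Thr Pool.Agent.V1132.CN

/-- The module presented by `A`: row vectors modulo the row space. -/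
abbrev Coker {S : Type} [Ring S] {m n : ℕ} (A : Matrix (Fin m) (Fin n) S) : Type :=
  (Fin n → S) ⧸ LinearMap.range A.vecMulLinear

/-- The least norm of a presentation matrix of `P` itself. -/
noncomputable def presNorm (G : Type) [Group G] (P : Type) [AddCommGroup P]
    [Module (MonoidAlgebra ℤ G) P] : ℝ :=
  sInf {c : ℝ | 0 ≤ c ∧ ∃ (m n : ℕ) (A : Matrix (Fin m) (Fin n) (MonoidAlgebra ℤ G)),
    NormLE A c ∧ Nonempty (P ≃ₗ[MonoidAlgebra ℤ G] Coker A)}

/-- The least norm of a presentation matrix of a module stably isomorphic to `P`. -/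
noncomputable def classNorm (G : Type) [Group G] (P : Type) [AddCommGroup P]
    [Module (MonoidAlgebra ℤ G) P] : ℝ :=
  sInf {c : ℝ | 0 ≤ c ∧ ∃ (m n : ℕ) (A : Matrix (Fin m) (Fin n) (MonoidAlgebra ℤ G)),
    NormLE A c ∧ StablyIso (MonoidAlgebra ℤ G) P (Coker A)}

theorem below (G : Type) [Group G] (htf : ∀ g : G, IsOfFinOrder g → g = 1)
    (P : Type) [AddCommGroup P] [Module (MonoidAlgebra ℤ G) P]
    (hP : Module.Projective (MonoidAlgebra ℤ G) P)
    (m n : ℕ) (A : Matrix (Fin m) (Fin n) (MonoidAlgebra ℤ G))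
    (e : StablyIso (MonoidAlgebra ℤ G) P (Coker A))
    (c : ℝ) (hc0 : 0 ≤ c) (hc : c < 3 / Real.sqrt 2) (hA : NormLE A c) :
    StablyFree (MonoidAlgebra ℤ G) P := by
  have hQ := e.projective hP
  obtain ⟨Y, hY⟩ := regular_of_projective A (Coker A) hQ (LinearEquiv.refl _ _)
  have htf' : ∀ g : G, ∀ k : ℕ, 0 < k → g ^ k = 1 → g = 1 := fun g k hk h =>
    htf g (isOfFinOrder_iff_pow_eq_one.2 ⟨k, hk, h⟩)
  have h1 : (1 : ℝ) < 3 / Real.sqrt 2 := by
    by_contra h
    push Not at h
    have h2 : (3 / Real.sqrt 2) ^ 2 ≤ 1 ^ 2 := pow_le_pow_left₀ thr_pos.le h 2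
    rw [thr_sq] at h2
    norm_num at h2
  have hmax : NormLE A (max c 1) := fun x =>
    (hA x).trans (mul_le_mul_of_nonneg_right (pow_le_pow_left₀ hc0 (le_max_left _ _) 2) (by
      unfold normSq
      exact Finset.sum_nonneg fun _ _ => Finset.sum_nonneg fun _ _ => sq_nonneg _))
  exact e.stablyFree (free_of_SFC A (SFC_small htf' A Y hY (max c 1)
    (lt_max_of_lt_right one_pos) (sq_lt_of_lt (le_max_of_le_left hc0) (max_lt hc h1)) hmax)
    (Coker A) (LinearEquiv.refl _ _))

theorem result :
    -- every group (torsion allowed), every finitely presented module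
    (∀ (G : Type) [Group G] (P : Type) [AddCommGroup P] [Module (MonoidAlgebra ℤ G) P],
      Module.FinitePresentation (MonoidAlgebra ℤ G) P →
        0 ≤ classNorm G P ∧ classNorm G P ≤ presNorm G P ∧ presNorm G P ≤ 3 / Real.sqrt 2 ∧
        ∀ c : ℝ, 3 / Real.sqrt 2 < c → ∃ (m n : ℕ)
          (A : Matrix (Fin m) (Fin n) (MonoidAlgebra ℤ G)),
          NormLE A c ∧ Nonempty (P ≃ₗ[MonoidAlgebra ℤ G] Coker A)) ∧
    -- torsion-free groups, projective modules: the dichotomy
    (∀ (G : Type) [Group G], (∀ g : G, IsOfFinOrder g → g = 1) →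
      ∀ (P : Type) [AddCommGroup P] [Module (MonoidAlgebra ℤ G) P],
        Module.Finite (MonoidAlgebra ℤ G) P → Module.Projective (MonoidAlgebra ℤ G) P →
        (StablyFree (MonoidAlgebra ℤ G) P ∧ classNorm G P = 0) ∨
        (¬ StablyFree (MonoidAlgebra ℤ G) P ∧ classNorm G P = 3 / Real.sqrt 2 ∧
          presNorm G P = 3 / Real.sqrt 2)) ∧
    -- one group, torsion allowed: above `3 / √2` a bound on the norm is no restriction
    (∀ (G : Type) [Group G] (c : ℝ), 3 / Real.sqrt 2 < c →
      ((∀ (P : Type) [AddCommGroup P] [Module (MonoidAlgebra ℤ G) P],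
          Module.Finite (MonoidAlgebra ℤ G) P → Module.Projective (MonoidAlgebra ℤ G) P →
          StablyFree (MonoidAlgebra ℤ G) P) ↔
        ∀ (m n : ℕ) (A : Matrix (Fin m) (Fin n) (MonoidAlgebra ℤ G)), NormLE A c →
          Module.Projective (MonoidAlgebra ℤ G) (Coker A) →
          StablyFree (MonoidAlgebra ℤ G) (Coker A))) ∧
    -- the whole question
    ((∀ (G : Type) [Group G], (∀ g : G, IsOfFinOrder g → g = 1) →
      ∀ (P : Type) [AddCommGroup P] [Module (MonoidAlgebra ℤ G) P],
        Module.Finite (MonoidAlgebra ℤ G) P → Module.Projective (MonoidAlgebra ℤ G) P →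
        StablyFree (MonoidAlgebra ℤ G) P) ↔
      ∀ (G : Type) [Group G], (∀ g : G, IsOfFinOrder g → g = 1) →
      ∀ (P : Type) [AddCommGroup P] [Module (MonoidAlgebra ℤ G) P],
        Module.Finite (MonoidAlgebra ℤ G) P → Module.Projective (MonoidAlgebra ℤ G) P →
        classNorm G P ≠ 3 / Real.sqrt 2) := by
  have above : ∀ (G : Type) [Group G] (P : Type) [AddCommGroup P]
      [Module (MonoidAlgebra ℤ G) P], Module.FinitePresentation (MonoidAlgebra ℤ G) P →
      ∀ c : ℝ, 3 / Real.sqrt 2 < c → ∃ (m n : ℕ)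
          (A : Matrix (Fin m) (Fin n) (MonoidAlgebra ℤ G)),
          NormLE A c ∧ Nonempty (P ≃ₗ[MonoidAlgebra ℤ G] Coker A) := by
    intro G _ P _ _ hP c hc
    exact pres_red P hP c (sq_gt_of_gt hc).2
  have key : ∀ (G : Type) [Group G], (∀ g : G, IsOfFinOrder g → g = 1) →
      ∀ (P : Type) [AddCommGroup P] [Module (MonoidAlgebra ℤ G) P],
        Module.Finite (MonoidAlgebra ℤ G) P → Module.Projective (MonoidAlgebra ℤ G) P →
        (StablyFree (MonoidAlgebra ℤ G) P ∧ classNorm G P = 0) ∨
        (¬ StablyFree (MonoidAlgebra ℤ G) P ∧ classNorm G P = 3 / Real.sqrt 2 ∧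
          presNorm G P = 3 / Real.sqrt 2) := by
    intro G _ htf P _ _ hfin hproj
    have hfp : Module.FinitePresentation (MonoidAlgebra ℤ G) P :=
      Module.finitePresentation_of_projective _ _
    by_cases h : StablyFree (MonoidAlgebra ℤ G) P
    · refine Or.inl ⟨h, sInf_zero (fun c hc => hc.1) ⟨le_rfl, 0, 0, 0, ?_, ?_⟩⟩
      · intro x
        simp [normSq]
      · obtain ⟨n, m, ⟨e⟩⟩ := h
        have : Subsingleton (Coker (0 : Matrix (Fin 0) (Fin 0) (MonoidAlgebra ℤ G))) :=
          Function.Surjective.subsingleton (Submodule.mkQ_surjective _)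
        let f : (Fin m → MonoidAlgebra ℤ G) ≃ₗ[MonoidAlgebra ℤ G]
            (Coker (0 : Matrix (Fin 0) (Fin 0) (MonoidAlgebra ℤ G)) ×
              (Fin m → MonoidAlgebra ℤ G)) :=
          { toFun := fun x => (0, x)
            map_add' := fun x y => Prod.ext (Subsingleton.elim _ _) rfl
            map_smul' := fun a x => Prod.ext (Subsingleton.elim _ _) rfl
            invFun := fun y => y.2
            left_inv := fun x => rfl
            right_inv := fun y => Prod.ext (Subsingleton.elim _ _) rfl }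
        exact ⟨n, m, ⟨e.trans f⟩⟩
    · refine Or.inr ⟨h, ?_, ?_⟩
      · refine sInf_thr (fun c hc => hc.1) _ (fun c hc => ?_) ?_
        · obtain ⟨m, n, A, h1, ⟨h2⟩⟩ := above G P hfp c hc
          exact ⟨(sq_gt_of_gt hc).1.le, m, n, A, h1, stablyIso_of_equiv h2⟩
        · rintro c ⟨h0, m, n, A, h1, h2⟩
          by_contra hlt
          exact h (below G htf P hproj m n A h2 c h0 (not_le.1 hlt) h1)
      · refine sInf_thr (fun c hc => hc.1) _ (fun c hc => ?_) ?_
        · obtain ⟨m, n, A, h1, h2⟩ := above G P hfp c hc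
          exact ⟨(sq_gt_of_gt hc).1.le, m, n, A, h1, h2⟩
        · rintro c ⟨h0, m, n, A, h1, ⟨h2⟩⟩
          by_contra hlt
          exact h (below G htf P hproj m n A (stablyIso_of_equiv h2) c h0 (not_le.1 hlt) h1)
  refine ⟨?_, key, ?_, ?_⟩
  · intro G _ P _ _ hP
    refine ⟨Real.sInf_nonneg fun c hc => hc.1, ?_, ?_, above G P hP⟩
    · apply csInf_le_csInf ⟨0, fun c hc => hc.1⟩
      · obtain ⟨m, n, A, h1, h2⟩ := above G P hP (3 / Real.sqrt 2 + 1) (by linarith)
        exact ⟨3 / Real.sqrt 2 + 1, by linarith [thr_pos], m, n, A, h1, h2⟩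
      · rintro c ⟨h0, m, n, A, h1, ⟨h2⟩⟩
        exact ⟨h0, m, n, A, h1, stablyIso_of_equiv h2⟩
    · refine sInf_le_thr (fun c hc => hc.1) _ fun c hc => ?_
      obtain ⟨m, n, A, h1, h2⟩ := above G P hP c hc
      exact ⟨(sq_gt_of_gt hc).1.le, m, n, A, h1, h2⟩
  · intro G _ c hc
    constructor
    · intro h m n A _ hproj
      exact h (Coker A) inferInstance hproj
    · intro h P _ _ hfin hproj
      have hfp : Module.FinitePresentation (MonoidAlgebra ℤ G) P :=
        Module.finitePresentation_of_projective _ _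
      obtain ⟨m, n, A, h1, ⟨h2⟩⟩ := above G P hfp c hc
      exact (stablyIso_of_equiv h2).stablyFree (h m n A h1 (Module.Projective.of_equiv h2))
  · constructor
    · intro h G _ htf P _ _ hfin hproj
      rcases key G htf P hfin hproj with h1 | h1
      · rw [h1.2]; exact thr_pos.ne
      · exact absurd (h G htf P hfin hproj) h1.1
    · intro h G _ htf P _ _ hfin hproj
      rcases key G htf P hfin hproj with h1 | h1
      · exact h1.1
      · exact absurd h1.2.1 (h G htf P hfin hproj)

end Pool.Agent.Results.MP_551055_al.CriticalNorm
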