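import Pool.Agent.V11187.DG.EvG

set_option autoImplicit false

/-!
# The Chern character of `K₀(B[G])` for groups detected by `π / [R, R]`, `π` acting on a tree

Let `G` be a torsion-free group. If the finitely generated projective modules over `ℤ[G]` are stably
free, then all cycles `(Ω, δ, T)` in the sense of Connes of even dimension `2 n ≥ 2` over `ℤ[G]`
vanish on the idempotent matrices: `T (e (δ e) ^ (2 n)) = 0`. We prove this for a class of groups, with
`ℤ` replaced by any field of characteristic zero and without conditions on the values of the cycle on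
the tuples of group elements with product `≠ 1`; and for arbitrary coefficient rings `B` and all
`n ≥ 0` we prove that the value on `e` is the contribution of the tuples with product `1`.

* `Fn G g`: an integer valued function on `G` is additive on the centraliser of `g` and does not
vanish at `g`.
* `TreeFn π R`: `π` acts by automorphisms on a tree, the elements of `R` which fix a vertex have
finite order, and the elements which fix a vertex and have infinite order modulo `R` satisfy `Fn` in
`π / R`. It holds for all `R` if the stabilizers are torsion groups.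
* `DetF G h`: every finitely generated subgroup of `G` containing `h` has a homomorphism to a group
`π / [R, R]` with `TreeFn π R` which maps `h` to an element of infinite order. If all elements `h ≠ 1`
are detected in this way the group is torsion-free.

Let `wordE δ ρ n e` be the matrix over `Ω[G]` whose coefficient at `h` is the sum of the terms of
`e (δ e) ^ (2 n)` with product `h`; `compT T (wordE δ ρ n e) g` is the component at the conjugacy
class of `g` of the value `onI δ T ρ n e = T (e (δ e) ^ (2 n))`.

Outline of the proof. The function `l` defines a form `P` on `Ω[G]` with the graded identity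
`P(a, b c) = ± P(c a, b) + P(a b, c)`, `P(1, a) = l(g) T_g(a)` and `P(δa, b) ± P(a, δb) = 0`. Let
`η = δe`; then `η = η e + e η`, `P(η ^ (2 n), e) = 0`, `P(η ^ j e, η ^ k) = 0` for `j + k = 2 n`, and
`P(1, e η ^ (2 n)) = 0`. For (3) the cycle is localised at `1`, as the cycle `Ω[G]` over `K[G]`, and
the starting result `EvenCyclesFiniteQuotients` is used for it.
-/

namespace Pool.Agent.Results.MP_551055_al.TreeGroupCycles

open Pool.Agent.V11187.DG (Cyc onI value wordE compT suppE)
open Pool.Agent.V11187.DT (Fn TreeFn DetF)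
open Pool.Agent.Y75.BF (InfOrd)

universe u v w x y

/-- For all coefficient rings `B`, all cycles of even dimension over `B[G]` and all idempotent
matrices over `B[G]`, the component of the value at the conjugacy class of `g` is killed by `k`. -/
def Kills (k : ℕ) (G : Type w) [Group G] (g : G) : Prop :=
  ∀ (K : Type u) [CommRing K] (B : Type y) [Ring B] (Ω : Type v) [Ring Ω] [Algebra K Ω]
    (𝒜 : ℕ → Submodule K Ω) [GradedAlgebra 𝒜] (M : Type x) [AddCommGroup M] [Module K M]
    (δ : Ω →ₗ[K] Ω) (T : Ω →ₗ[K] M) (n : ℕ), Cyc (2 * n) 𝒜 δ T →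
    ∀ ρ : MonoidAlgebra B G →+* Ω, (∀ a, ρ a ∈ 𝒜 0) →
    ∀ (d : ℕ) (e : Matrix (Fin d) (Fin d) (MonoidAlgebra B G)), e * e = e →
      k • compT T (wordE δ ρ n e) g = 0

/-- For all coefficient rings `B`, all cycles of even dimension over `B[G]` with values in
torsion-free groups and all idempotent matrices over `B[G]`, the value is its component at `1`. -/
def OnlyOne (G : Type w) [Group G] : Prop :=
  ∀ (K : Type u) [CommRing K] (B : Type y) [Ring B] (Ω : Type v) [Ring Ω] [Algebra K Ω]
    (𝒜 : ℕ → Submodule K Ω) [GradedAlgebra 𝒜] (M : Type x) [AddCommGroup M] [Module K M]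
    (δ : Ω →ₗ[K] Ω) (T : Ω →ₗ[K] M) (n : ℕ), (∀ (k : ℤ) (z : M), k ≠ 0 → k • z = 0 → z = 0) →
    Cyc (2 * n) 𝒜 δ T → ∀ ρ : MonoidAlgebra B G →+* Ω, (∀ a, ρ a ∈ 𝒜 0) →
    ∀ (d : ℕ) (e : Matrix (Fin d) (Fin d) (MonoidAlgebra B G)), e * e = e →
      onI δ T ρ n e = compT T (wordE δ ρ n e) 1

/-- The values of the cycle on the tuples of elements of `H` with product `1` lie in the module
generated by a finite set over a finitely generated subring of `K`. -/
def FinType {K : Type u} [Field K] {G : Type w} [Group G] {Ω : Type v} [Ring Ω] [Algebra K Ω]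
    {M : Type x} [AddCommGroup M] [Module K M] (δ : Ω →ₗ[K] Ω) (T : Ω →ₗ[K] M) (N : ℕ)
    (ρ : MonoidAlgebra K G →ₐ[K] Ω) (H : Subgroup G) : Prop :=
  ∃ (s : Finset K) (F : Finset M), ∀ (a : H) (l : List H),
    l.length = N → a * l.prod = 1 → value δ T ρ a (l.map Subtype.val) ∈
      Submodule.span (Algebra.adjoin ℤ (s : Set K)) (F : Set M)

/-- All cycles of dimension `2 n ≥ 2` with the property `FinType` vanish on `e`. -/
def Vanish (K : Type u) [Field K] {G : Type w} [Group G] {d : ℕ}
    (e : Matrix (Fin d) (Fin d) (MonoidAlgebra K G)) : Prop :=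
  ∀ (Ω : Type v) [Ring Ω] [Algebra K Ω] (𝒜 : ℕ → Submodule K Ω) [GradedAlgebra 𝒜]
    (M : Type x) [AddCommGroup M] [Module K M] (δ : Ω →ₗ[K] Ω) (T : Ω →ₗ[K] M) (n : ℕ), 1 ≤ n →
    Cyc (2 * n) 𝒜 δ T → ∀ ρ : MonoidAlgebra K G →ₐ[K] Ω, (∀ a, ρ a ∈ 𝒜 0) →
    FinType δ T (2 * n) ρ (suppE e) → onI δ T (ρ : MonoidAlgebra K G →+* Ω) n e = 0

/-- Every finitely generated subgroup of `G` has a homomorphism to a group `π / [R, R]`, `π` acting
on a tree with torsion stabilizers and `R` any normal subgroup of `π`, which maps the elements of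
infinite order to elements of infinite order. -/
def TorsionTrees (G : Type w) [Group G] : Prop :=
  ∀ H : Subgroup G, H.FG → ∃ (π V : Type) (_ : Group π) (_ : MulAction π V)
    (Tr : SimpleGraph V) (R : Subgroup π) (_ : R.Normal) (s : H →* π ⧸ ⁅R, R⁆), Tr.IsTree ∧
    (∀ (g : π) (u v : V), Tr.Adj u v → Tr.Adj (g • u) (g • v)) ∧
    (∀ (v : V) (x : π), x • v = v → IsOfFinOrder x) ∧ ∀ h : H, InfOrd h → InfOrd (s h)

/-- (1) If an integer valued function `l` is additive on the centraliser of `g` and `l(g) ≠ 0` then a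
positive integer kills all components at `g`. (2) If all elements `h ≠ 1` are detected then the values
with arbitrary coefficient rings are the components at `1`, and (3) for the coefficient fields of
characteristic zero they vanish in positive dimensions. (4) The torsion-free groups with the
property `TorsionTrees` are examples. -/
theorem result :
    (∀ (G : Type w) [Group G] (g : G), Fn G g → ∃ k : ℕ, 0 < k ∧ Kills.{u, v, w, x, y} k G g) ∧
    (∀ (G : Type w) [Group G], (∀ h : G, h ≠ 1 → DetF G h) → OnlyOne.{u, v, w, x, y} G) ∧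
    (∀ (G : Type w) [Group G], (∀ h : G, h ≠ 1 → DetF G h) →
      ∀ (K : Type u) [Field K] [CharZero K] (d : ℕ)
        (e : Matrix (Fin d) (Fin d) (MonoidAlgebra K G)), e * e = e →
        Vanish.{u, v, w, x} K e) ∧
    (∀ (G : Type w) [Group G], (∀ h : G, h ≠ 1 → InfOrd h) → TorsionTrees G →
      ∀ h : G, h ≠ 1 → DetF G h) := by
  refine ⟨?_, ?_, ?_, ?_⟩
  · intro G _ g hg
    obtain ⟨l, hl, hlg⟩ := hg
    refine ⟨(l g).natAbs, Int.natAbs_pos.2 hlg, ?_⟩
    intro K _ B _ Ω _ _ 𝒜 _ M _ _ δ T n hc ρ hρ d e he
    have h2 := Pool.Agent.V11187.DG.comp_wordE g l hl hc hρ e he n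
    rcases Int.natAbs_eq (l g) with h3 | h3
    · rw [h3, natCast_zsmul] at h2
      exact h2
    · rw [h3, neg_zsmul, natCast_zsmul, neg_eq_zero] at h2
      exact h2
  · intro G _ hG K _ B _ Ω _ _ 𝒜 _ M _ _ δ T n hM hc ρ hρ d e he
    exact Pool.Agent.V11187.DG.onI_one (fun g hg => (hG g hg).loc) hM hc hρ e he
  · intro G _ hG K _ _ d e he Ω _ _ 𝒜 _ M _ _ δ T n hn hc ρ hρ hF
    obtain ⟨s, F, hF⟩ := hF
    exact Pool.Agent.V11187.DG.onI_zero (fun g hg => (hG g hg).loc) e he 𝒜 δ T n hn hc ρ hρ s F hF
  · intro G _ htf hG h hh H0 hH0 hh0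
    obtain ⟨π, V, _, _, Tr, R, _, s, hT, hadj, htor, hs⟩ := hG H0 hH0
    refine ⟨π, inferInstance, R, inferInstance, s, ?_, hs ⟨h, hh0⟩ ?_⟩
    · refine ⟨V, inferInstance, Tr, hT, hadj, fun v x hx => ⟨fun _ hi => ?_, fun hi => ?_⟩⟩
      · exact (Pool.Agent.V11187.BT.infOrd_iff x).mp hi (htor v x hx)
      · exact absurd ((QuotientGroup.mk' R).isOfFinOrder (htor v x hx))
          ((Pool.Agent.V11187.BT.infOrd_iff _).mp hi)
    · intro n hn h1
      exact htf h hh n hn (congrArg Subtype.val h1)

end Pool.Agent.Results.MP_551055_al.TreeGroupCycles
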